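import Pool.Agent.H914R2.Var

/-!
# Forms in separate sets of variables: definitions
-/

set_option autoImplicit false

open CategoryTheory AlgebraicGeometry MvPolynomial

universe u v w

namespace Pool.Agent.U926.HC

open Pool.Agent.H914

attribute [local instance] MvPolynomial.gradedAlgebra

section forms

variable {k : Type u} [Field k]

/-- `f` is a nonsingular form of degree `d`: it is homogeneous of degree `d`, and the origin is the
only common zero of its partial derivatives (`k` algebraically closed). -/
def IsNonsingularForm {σ : Type} (d : ℕ) (f : MvPolynomial σ k) : Prop :=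
  f.IsHomogeneous d ∧ ∀ x : σ → k, (∀ i, eval x (pderiv i f) = 0) → x = 0

/-- The form `f(x) + g(y)` in the separate sets of variables `x`, `y`. -/
noncomputable def sumForm {σ τ : Type} (f : MvPolynomial σ k) (g : MvPolynomial τ k) :
    MvPolynomial (σ ⊕ τ) k :=
  rename Sum.inl f + rename Sum.inr g

/-- The form `z ^ d` in one variable. -/
noncomputable def powForm (k : Type u) [Field k] (d : ℕ) : MvPolynomial Unit k := X () ^ d

/-- The form `f(x) + z ^ d`, where `z` is a new variable. -/
noncomputable def addPow {σ : Type} (d : ℕ) (f : MvPolynomial σ k) : MvPolynomial (σ ⊕ Unit) k :=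
  sumForm f (powForm k d)

/-- The form `g_0(x^(0)) + ⋯ + g_r(x^(r))` in separate sets of variables. -/
noncomputable def sumForms {r : ℕ} {σ : Fin (r + 1) → Type}
    (g : ∀ l, MvPolynomial (σ l) k) : MvPolynomial (Σ l, σ l) k :=
  ∑ l, rename (Sigma.mk l) (g l)

/-- The Fermat form `x_1 ^ d + ⋯ + x_N ^ d`. -/
noncomputable def fermat (k : Type u) [Field k] (N d : ℕ) : MvPolynomial (Fin N) k :=
  ∑ i, X i ^ d

/-- The conditions on the forms `g_0, …, g_r` of degree `d` in separate sets of variables and the
integers `c_0, …, c_r`: the forms are nonsingular, and `binomial(c_l + d - 1, c_l)` is at most the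
number of variables of `g_l`, `c_l ≥ 1`, for `l ≥ 1`; and less than the number of variables of
`g_0`, or `c_0 = 0`, for `l = 0`. -/
structure IsAdmissible (d : ℕ) {r : ℕ} {σ : Fin (r + 1) → Type}
    (g : ∀ l, MvPolynomial (σ l) k) (c : Fin (r + 1) → ℕ) : Prop where
  finite : ∀ l, Finite (σ l)
  nonempty : ∀ l, Nonempty (σ l)
  form : ∀ l, IsNonsingularForm d (g l)
  large : ∀ l, l ≠ 0 → 1 ≤ c l ∧ (c l + d - 1).choose (c l) ≤ Nat.card (σ l)
  zero : c 0 = 0 ∨ (c 0 + d - 1).choose (c 0) < Nat.card (σ 0)

/-- The projective space with coordinates indexed by `σ`. -/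
noncomputable def projSpace (k : Type u) [Field k] (σ : Type) : Scheme.{u} :=
  Proj (homogeneousSubmodule σ k)

/-- The structure morphism of the projective space. -/
noncomputable def projStr (k : Type u) [Field k] (σ : Type) : projSpace k σ ⟶ Spec (.of k) :=
  Proj.toSpecZero (homogeneousSubmodule σ k) ≫
    Spec.map (CommRingCat.ofHom (algebraMap k (homogeneousSubmodule σ k 0)))

/-- The point `y` of the projective space lies on the hypersurface `f = 0`. -/
def LiesOn {σ : Type} (f : MvPolynomial σ k) (y : projSpace k σ) : Prop :=
  f ∈ HomogeneousIdeal.toIdeal (ProjectiveSpectrum.asHomogeneousIdeal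
    (𝒜 := homogeneousSubmodule σ k) y)

/-- The variety `X` is the hypersurface `f = 0` in the projective space with coordinates indexed by
`σ`: there is a closed immersion over `k` with image the set of the points on `f = 0`. -/
def IsHypersurface {σ : Type} (X : SmVar k) (f : MvPolynomial σ k) : Prop :=
  ∃ i : X.X ⟶ projSpace k σ, IsClosedImmersion i ∧ i ≫ projStr k σ = X.str ∧
    ∀ y : projSpace k σ, LiesOn f y ↔ ∃ x, i x = y

end forms

end Pool.Agent.U926.HC
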