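import Pool.Agent.U926.HC.Defs

/-!
# Forms in separate sets of variables
-/

set_option autoImplicit false

open MvPolynomial

universe u

namespace Pool.Agent.U926.HC

variable {k : Type u} [Field k]

/-- The derivatives of a renamed polynomial with respect to a variable in the image. -/
lemma pderiv_rename' {σ τ : Type} {φ : σ → τ} (hφ : Function.Injective φ) (i : σ)
    (f : MvPolynomial σ k) : pderiv (φ i) (rename φ f) = rename φ (pderiv i f) :=
  pderiv_rename hφ i f

lemma pderiv_rename_of_notMem {σ τ : Type} {φ : σ → τ} (j : τ) (hj : ∀ i, φ i ≠ j)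
    (f : MvPolynomial σ k) : pderiv j (rename φ f) = 0 := by
  induction f using MvPolynomial.induction_on with
  | C a => rw [rename_C, pderiv_C]
  | add p q hp hq => rw [map_add, map_add, hp, hq, add_zero]
  | mul_X p i hp =>
    rw [map_mul, rename_X, pderiv_mul, hp, pderiv_X_of_ne (hj i), zero_mul, mul_zero, add_zero]

lemma IsNonsingularForm.rename {σ τ : Type} {d : ℕ} (e : σ ≃ τ) {f : MvPolynomial σ k}
    (hf : IsNonsingularForm d f) : IsNonsingularForm d (rename e f) := by
  refine ⟨hf.1.rename_isHomogeneous, fun x hx => ?_⟩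
  have h1 := hf.2 (x ∘ e) fun i => by
    have h2 := hx (e i)
    rw [pderiv_rename' e.injective, eval_rename] at h2
    exact h2
  funext j
  have h2 := congrFun h1 (e.symm j)
  simpa using h2

lemma IsNonsingularForm.sumForm {σ τ : Type} {d : ℕ} {f : MvPolynomial σ k}
    {g : MvPolynomial τ k} (hf : IsNonsingularForm d f) (hg : IsNonsingularForm d g) :
    IsNonsingularForm d (sumForm f g) := by
  refine ⟨hf.1.rename_isHomogeneous.add hg.1.rename_isHomogeneous, fun x hx => ?_⟩
  have h1 := hf.2 (x ∘ Sum.inl) fun i => by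
    have h2 := hx (Sum.inl i)
    rw [HC.sumForm, map_add, pderiv_rename' Sum.inl_injective,
      pderiv_rename_of_notMem _ (fun _ => Sum.inr_ne_inl), add_zero, eval_rename] at h2
    exact h2
  have h3 := hg.2 (x ∘ Sum.inr) fun i => by
    have h2 := hx (Sum.inr i)
    rw [HC.sumForm, map_add, pderiv_rename' Sum.inr_injective,
      pderiv_rename_of_notMem _ (fun _ => Sum.inl_ne_inr), zero_add, eval_rename] at h2
    exact h2
  funext j
  rcases j with i | i
  · exact congrFun h1 i
  · exact congrFun h3 i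

lemma isNonsingularForm_pow [CharZero k] {d : ℕ} (hd : 2 ≤ d) :
    IsNonsingularForm d (powForm k d) := by
  refine ⟨?_, fun x hx => ?_⟩
  · have h1 := (isHomogeneous_X k ()).pow d
    rwa [one_mul] at h1
  · have h1 := hx ()
    rw [powForm, pderiv_pow, pderiv_X_self, mul_one, map_mul, map_natCast, map_pow,
      eval_X] at h1
    have h2 : x () = 0 := by
      rcases mul_eq_zero.1 h1 with h2 | h2
      · exact absurd (Nat.cast_eq_zero.1 h2) (by omega)
      · exact pow_eq_zero_iff (by omega) |>.1 h2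
    funext i
    exact h2

/-- `F` is the sum of nonsingular forms `g_1, …, g_r, g_0` of degree `d` in separate sets of
variables, such that `c_l ≥ 1` and `binomial(c_l + d - 1, c_l)` is at most the number of variables
of `g_l`, for `l ≥ 1`, and less than the number of variables of `g_0` for `l = 0` if `c_0 > 0`. -/
def Sep (d c₀ : ℕ) : List ℕ → ∀ {ρ : Type}, MvPolynomial ρ k → Prop
  | [], ρ, F => Finite ρ ∧ IsNonsingularForm d F ∧
      (c₀ = 0 ∨ (c₀ + d - 1).choose c₀ < Nat.card ρ)
  | c :: cs, ρ, F => ∃ (σ τ : Type) (_ : Finite σ) (_ : Finite τ) (e : ρ ≃ σ ⊕ τ)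
      (f : MvPolynomial σ k) (g : MvPolynomial τ k), rename e F = sumForm f g ∧
      IsNonsingularForm d f ∧ (1 ≤ c ∧ (c + d - 1).choose c ≤ Nat.card σ) ∧ 1 ≤ Nat.card τ ∧
      Sep d c₀ cs g

lemma Sep.finite {d c₀ : ℕ} (cs : List ℕ) {ρ : Type} {F : MvPolynomial ρ k} (h : Sep d c₀ cs F) :
    Finite ρ := by
  cases cs with
  | nil => exact h.1
  | cons c cs =>
    obtain ⟨σ, τ, _, _, e, -⟩ := h
    exact Finite.of_equiv _ e.symm

lemma of_rename {ρ ρ' : Type} (e : ρ ≃ ρ') {F : MvPolynomial ρ k} {G : MvPolynomial ρ' k}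
    (h : rename e F = G) : F = rename e.symm G := by
  rw [← h, rename_rename]
  simp

lemma Sep.form {d c₀ : ℕ} (cs : List ℕ) {ρ : Type} {F : MvPolynomial ρ k} (h : Sep d c₀ cs F) :
    IsNonsingularForm d F := by
  induction cs generalizing ρ F with
  | nil => exact h.2.1
  | cons c cs ih =>
    obtain ⟨σ, τ, _, _, e, f, g, h1, h2, -, -, h4⟩ := h
    rw [of_rename e h1]
    exact (h2.sumForm (ih h4)).rename e.symm

/-- The variables are at least as many as for `c` summands of degree `d`. -/
lemma le_choose {d c : ℕ} (hd : 1 ≤ d) (hc : 1 ≤ c) : d ≤ (c + d - 1).choose c := by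
  induction c, hc using Nat.le_induction with
  | base => rw [Nat.add_comm 1 d, Nat.add_sub_cancel, Nat.choose_one_right]
  | succ c hc ih =>
    have h1 : c + 1 + d - 1 = (c + d - 1) + 1 := by omega
    rw [h1, Nat.choose_succ_succ]
    omega

lemma choose_lt {d c : ℕ} (hd : 2 ≤ d) (hc : 1 ≤ c) :
    (c - 1 + d - 1).choose (c - 1) < (c + d - 1).choose c := by
  obtain ⟨c, rfl⟩ := Nat.exists_eq_add_of_le' hc
  have h1 : c + 1 + d - 1 = (c + d - 1) + 1 := by omega
  have h3 : c + 1 - 1 = c := rfl
  rw [h3, h1, Nat.choose_succ_succ]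
  have h2 : 0 < (c + d - 1).choose (c + 1) := Nat.choose_pos (by omega)
  change _ < _ + (c + d - 1).choose (c + 1)
  omega

lemma Sep.card {d c₀ : ℕ} (hd : 1 ≤ d) (cs : List ℕ) {ρ : Type} {F : MvPolynomial ρ k}
    (h : Sep d c₀ cs F) (hc : 1 ≤ cs.sum + c₀) : d ≤ Nat.card ρ := by
  induction cs generalizing ρ F with
  | nil =>
    rw [List.sum_nil, zero_add] at hc
    have h1 := le_choose hd hc
    rcases h.2.2 with h2 | h2 <;> omega
  | cons c cs ih =>
    obtain ⟨σ, τ, _, _, e, f, g, h1, h2, h3, h3', h4⟩ := h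
    rw [Nat.card_congr e, Nat.card_sum]
    have h5 := le_choose hd h3.1
    omega

/-- Adding `w ^ d`, in a new variable. -/
lemma Sep.add_pow [CharZero k] {d c₀ : ℕ} (hd : 2 ≤ d) (cs : List ℕ) {ρ : Type}
    {F : MvPolynomial ρ k} (h : Sep d c₀ cs F) : Sep d c₀ cs (sumForm F (powForm k d)) := by
  induction cs generalizing ρ F with
  | nil =>
    have := h.1
    refine ⟨inferInstance, h.2.1.sumForm (isNonsingularForm_pow hd), ?_⟩
    rcases h.2.2 with h1 | h1
    · exact Or.inl h1
    · right
      rw [Nat.card_sum]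
      omega
  | cons c cs ih =>
    obtain ⟨σ, τ, _, _, e, f, g, h1, h2, h3, h3', h4⟩ := h
    refine ⟨σ, τ ⊕ Unit, inferInstance, inferInstance,
      (Equiv.sumCongr e (Equiv.refl Unit)).trans (Equiv.sumAssoc σ τ Unit), f,
      sumForm g (powForm k d), ?_, h2, h3, ?_, ih h4⟩
    · rw [of_rename e h1]
      simp only [sumForm, map_add, rename_rename, powForm, map_pow, rename_X]
      rw [add_assoc]
      have e1 : (⇑((Equiv.sumCongr e (Equiv.refl Unit)).trans (Equiv.sumAssoc σ τ Unit)) ∘
          Sum.inl ∘ ⇑e.symm ∘ Sum.inl) = Sum.inl := by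
        funext i
        simp
      have e2 : (⇑((Equiv.sumCongr e (Equiv.refl Unit)).trans (Equiv.sumAssoc σ τ Unit)) ∘
          Sum.inl ∘ ⇑e.symm ∘ Sum.inr) = Sum.inr ∘ Sum.inl := by
        funext i
        simp
      rw [e1, e2]
      rfl
    · rw [Nat.card_sum]
      omega

/-- The form `g_0 + ⋯ + g_r` has this property. -/
lemma sep_sumForms {d : ℕ} : ∀ {r : ℕ} {σ : Fin (r + 1) → Type} (_ : ∀ l, Finite (σ l))
    (_ : ∀ l, Nonempty (σ l)) (g : ∀ l, MvPolynomial (σ l) k)
    (_ : ∀ l, IsNonsingularForm d (g l)) (c : Fin (r + 1) → ℕ)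
    (_ : ∀ l, l ≠ 0 → 1 ≤ c l ∧ (c l + d - 1).choose (c l) ≤ Nat.card (σ l))
    (_ : c 0 = 0 ∨ (c 0 + d - 1).choose (c 0) < Nat.card (σ 0)),
    ∃ cs : List ℕ, cs.sum + c 0 = ∑ l, c l ∧ Sep d (c 0) cs (sumForms g) := by
  intro r
  induction r with
  | zero =>
    intro σ hfin hne g hg c hc h0
    have hbij : Function.Bijective (Sigma.mk 0 : σ 0 → Σ l, σ l) := ⟨sigma_mk_injective, by
      rintro ⟨l, x⟩
      obtain rfl : l = 0 := Fin.fin_one_eq_zero l
      exact ⟨x, rfl⟩⟩
    have := hfin
    refine ⟨[], ?_, inferInstance, ?_, ?_⟩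
    · rw [List.sum_nil, zero_add, Fin.sum_univ_one]
    · rw [sumForms, Fin.sum_univ_one]
      exact (hg 0).rename (Equiv.ofBijective _ hbij)
    · rwa [← Nat.card_congr (Equiv.ofBijective _ hbij)]
  | succ r ih =>
    intro σ hfin hne g hg c hc h0
    obtain ⟨cs, h1, h2⟩ := ih (σ := fun l => σ l.castSucc) (fun l => hfin _) (fun l => hne _)
      (fun l => g l.castSucc) (fun l => hg _) (fun l => c l.castSucc) (fun l hl => hc _ (by
        rwa [Ne, Fin.castSucc_eq_zero_iff])) h0
    have := hfin
    let φ : σ (Fin.last (r + 1)) ⊕ (Σ l : Fin (r + 1), σ l.castSucc) → Σ l, σ l :=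
      Sum.elim (Sigma.mk (Fin.last (r + 1))) fun x => ⟨x.1.castSucc, x.2⟩
    have hφ : Function.Bijective φ := by
      constructor
      · rintro (x | ⟨l, x⟩) (y | ⟨m, y⟩) h
        · exact congrArg Sum.inl (sigma_mk_injective h)
        · have h3 := congrArg (fun z : Σ l, σ l => z.1) h
          exact absurd h3.symm (Fin.castSucc_ne_last m)
        · have h3 := congrArg (fun z : Σ l, σ l => z.1) h
          exact absurd h3 (Fin.castSucc_ne_last l)
        · have h3 : l.castSucc = m.castSucc := congrArg (fun z : Σ l, σ l => z.1) h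
          obtain rfl := Fin.castSucc_injective _ h3
          have h4 : x = y := sigma_mk_injective h
          rw [h4]
      · rintro ⟨l, x⟩
        induction l using Fin.lastCases with
        | last => exact ⟨Sum.inl x, rfl⟩
        | cast l => exact ⟨Sum.inr ⟨l, x⟩, rfl⟩
    have hF : sumForms g = rename φ (sumForm (g (Fin.last (r + 1)))
        (sumForms fun l : Fin (r + 1) => g l.castSucc)) := by
      have e1 : rename φ (rename Sum.inl (g (Fin.last (r + 1)))) =
          rename (Sigma.mk (Fin.last (r + 1))) (g (Fin.last (r + 1))) := by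
        rw [rename_rename]
        rfl
      have e2 : rename φ (rename Sum.inr (sumForms fun l : Fin (r + 1) => g l.castSucc)) =
          ∑ l : Fin (r + 1), rename (Sigma.mk l.castSucc) (g l.castSucc) := by
        rw [sumForms, map_sum, map_sum]
        refine Finset.sum_congr rfl fun l _ => ?_
        rw [rename_rename, rename_rename]
        rfl
      have e3 : sumForms g = ∑ l : Fin (r + 1), rename (Sigma.mk l.castSucc) (g l.castSucc) +
          rename (Sigma.mk (Fin.last (r + 1))) (g (Fin.last (r + 1))) := by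
        rw [sumForms, Fin.sum_univ_castSucc]
      rw [e3, sumForm, map_add, e1, e2]
      exact _root_.add_comm _ _
    refine ⟨c (Fin.last (r + 1)) :: cs, ?_, σ (Fin.last (r + 1)),
      Σ l : Fin (r + 1), σ l.castSucc, inferInstance, inferInstance,
      (Equiv.ofBijective φ hφ).symm, g (Fin.last (r + 1)),
      sumForms fun l : Fin (r + 1) => g l.castSucc, ?_, hg _, hc _ (by
        rw [Ne, Fin.last_eq_zero_iff]
        omega), ?_, h2⟩
    · rw [List.sum_cons, Fin.sum_univ_castSucc, ← h1, Fin.castSucc_zero]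
      ring
    · rw [hF, rename_rename]
      have e1 : ⇑(Equiv.ofBijective φ hφ).symm ∘ φ = id := by
        funext x
        exact (Equiv.ofBijective φ hφ).symm_apply_apply x
      rw [e1, rename_id, AlgHom.id_apply]
    · have : Nonempty (Σ l : Fin (r + 1), σ l.castSucc) := ⟨⟨0, (hne _).some⟩⟩
      exact Nat.card_pos

end Pool.Agent.U926.HC
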