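import Pool.Agent.U926.HC.Corr
import Pool.Agent.U926.HC.Forms

/-!
# The Chow groups of hypersurfaces with equations in separate sets of variables
-/

set_option autoImplicit false

open CategoryTheory AlgebraicGeometry MvPolynomial

universe u v w

namespace Pool.Agent.U926.HC

open Pool.Agent.H914 Pool.Agent.H914.VarClass Pool.Agent.H914.VarClass.Obj Pool.Agent.W492.BB
  Pool.Agent.W550.Corr Pool.Agent.TH133

set_option linter.unusedSectionVars false

variable {k : Type u} [Field k] {𝒱 : VarClass k}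

section chow

variable {C : TheoryData.{u, v, 0} 𝒱 ℚ} [hC : IsChowProj C] {X Y Z W : 𝒱.Obj}

include hC

lemma pow_gr {h : C.A X} (hh : h ∈ C.gr X 1) (i : ℕ) : h ^ i ∈ C.gr X i := by
  induction i with
  | zero => rw [pow_zero, Nat.cast_zero]; exact C.one_mem X
  | succ i ih => rw [pow_succ, Nat.cast_succ]; exact C.mul_mem ih hh

lemma primProj_eq (h : C.A X) (d : ℕ) : primProj C d h = dg C X - (d : ℚ)⁻¹ •
    ∑ i ∈ Finset.range (X.dim + 1), C.ext (h ^ (X.dim - i)) (h ^ i) := rfl

lemma primProj_gr {h : C.A X} (hh : h ∈ C.gr X 1) (d : ℕ) :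
    primProj C d h ∈ C.gr (X.prod X) X.dim := by
  refine Submodule.sub_mem _ (dg_mem C X) (Submodule.smul_mem _ _ (Submodule.sum_mem _ fun i hi => ?_))
  have h1 := ext_mem' (pow_gr hh (X.dim - i)) (pow_gr hh i)
  have h2 := Finset.mem_range.1 hi
  have e1 : ((X.dim - i : ℕ) : ℤ) + (i : ℕ) = X.dim := by omega
  rwa [e1] at h1

/-- The action of the primitive projector. -/
lemma act_primProj {h : C.A X} (hh : h ∈ C.gr X 1) (d : ℕ) {j : ℕ} (hj : j ≤ X.dim) {z : C.A X}
    (hz : z ∈ C.gr X j) {q : ℚ} (hq : HasDegree C (h ^ (X.dim - j) * z) q) :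
    C.act (primProj C d h) z = z - ((d : ℚ)⁻¹ * q) • h ^ j := by
  rw [primProj_eq, C.act_sub, act_dg C z]
  congr 1
  have e1 : ∀ (a : ℚ) (Γ : C.A (X.prod X)), C.act (a • Γ) z = a • C.act Γ z := fun a Γ =>
    LinearMap.map_smul₂ (actB C) a Γ z
  rw [e1, act_sum, Finset.sum_eq_single j]
  · rw [act_ext' hq, mul_smul]
  · intro i hi hij
    have h1 : h ^ (X.dim - i) * z ∈ C.gr X (((X.dim - i : ℕ) : ℤ) + j) :=
      C.mul_mem (pow_gr hh _) hz
    have h2 := Finset.mem_range.1 hi
    exact act_ext_zero_of_lt h1 (by omega)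
  · intro h1
    exact absurd (Finset.mem_range.2 (by omega)) h1

lemma act_primProj_pow {h : C.A X} (hh : h ∈ C.gr X 1) {d : ℕ} (hd : d ≠ 0)
    (hdeg : HasDegree C (h ^ X.dim) d) (j : ℕ) : C.act (primProj C d h) (h ^ j) = 0 := by
  rcases le_or_gt j X.dim with hj | hj
  · rw [act_primProj hh d hj (pow_gr hh j) (q := d), inv_mul_cancel₀ (Nat.cast_ne_zero.2 hd),
      one_smul, sub_self]
    rwa [← pow_add, Nat.sub_add_cancel hj]
  · rw [hC.gr_top X j _ (pow_gr hh j) (by exact_mod_cast hj), C.act_map_zero]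

lemma tp_primProj (h : C.A X) (d : ℕ) : tp C (primProj C d h) = primProj C d h := by
  rw [primProj_eq, tp_sub, tp_dg, tp_smul, tp_sum]
  congr 2
  rw [← Finset.sum_range_reflect]
  refine Finset.sum_congr rfl fun i hi => ?_
  have h2 := Finset.mem_range.1 hi
  rw [tp_ext]
  have e1 : X.dim + 1 - 1 - i = X.dim - i := by omega
  have e2 : X.dim - (X.dim - i) = i := by omega
  rw [e1, e2]

/-- The transposes of the correspondences of coniveau `c` are zero on the cycles of dimension less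
than `c`. -/
lemma tp_coniveau {c : ℕ} {ε : C.A (X.prod X)} (hε : ε ∈ coniveau C X c) {i : ℤ}
    (hi : (X.dim : ℤ) < i + c) {z : C.A X} (hz : z ∈ C.gr X i) : C.act (tp C ε) z = 0 := by
  refine Submodule.span_induction (p := fun ε _ => C.act (tp C ε) z = 0) ?_ ?_ ?_ ?_ hε
  · rintro ε ⟨S, n, a, b, hn, ha, hb, rfl⟩
    rw [tp_comp C (ch_comm C), C.act_comp]
    have h1 := act_gr (tp_mem C hb) hz
    rw [hC.gr_top S _ _ h1 (by omega), C.act_map_zero]
  · rw [tp_zero, C.act_zero]
  · intro x y _ _ hx hy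
    rw [tp_add, C.act_add, hx, hy, add_zero]
  · intro q x _ hx
    have e4 : C.act (q • tp C x) z = q • C.act (tp C x) z := LinearMap.map_smul₂ (actB C) q _ z
    rw [tp_smul, e4, hx, smul_zero]

lemma smul_comp (q : ℚ) (a : C.A (X.prod Y)) (b : C.A (Y.prod Z)) :
    C.comp (q • a) b = q • C.comp a b := LinearMap.map_smul₂ (compL C) q a b

lemma comp_smul (q : ℚ) (a : C.A (X.prod Y)) (b : C.A (Y.prod Z)) :
    C.comp a (q • b) = q • C.comp a b := map_smul (compL C a) q b

lemma comp_ext (v : C.A X) (α : C.A Y) (Δ : C.A (Y.prod Z)) :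
    C.comp (C.ext v α) Δ = C.ext v (C.act Δ α) := by
  rw [comp_eq_extR, C.extR_ext Δ (fun c => ch_comm C _ _)]

lemma decomposable_comp {h : C.A X} {z : C.A (Y.prod X)} (hz : IsDecomposable C h z)
    {π : C.A (X.prod X)} (hπ : ∀ l : ℕ, C.act π (h ^ l) = 0) : C.comp z π = 0 := by
  refine Submodule.span_induction (p := fun z _ => C.comp z π = 0) ?_ ?_ ?_ ?_ hz
  · rintro z ⟨γ, l, rfl⟩
    rw [comp_ext, show pw C h l = h ^ l from rfl, hπ, C.ext_zero_right]
  · exact zero_comp C π
  · intro x y _ _ hx hy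
    rw [add_comp, hx, hy, add_zero]
  · intro q x _ hx
    rw [smul_comp, hx, smul_zero]

lemma primProj_comp {h : C.A X} (hh : h ∈ C.gr X 1) {d : ℕ} (hd : d ≠ 0)
    (hdeg : HasDegree C (h ^ X.dim) d) :
    C.comp (primProj C d h) (primProj C d h) = primProj C d h := by
  conv_lhs => rw [primProj_eq]
  rw [sub_comp, dg_comp, smul_comp, sum_comp]
  have h1 : ∑ i ∈ Finset.range (X.dim + 1),
      C.comp (C.ext (h ^ (X.dim - i)) (h ^ i)) (primProj C d h) = 0 :=
    Finset.sum_eq_zero fun i _ => by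
      rw [comp_ext, act_primProj_pow hh hd hdeg, C.ext_zero_right]
  change primProj C d h - (d : ℚ)⁻¹ • (∑ i ∈ Finset.range (X.dim + 1),
      C.comp (C.ext (h ^ (X.dim - i)) (h ^ i)) (primProj C d h)) = _
  rw [h1, smul_zero, sub_zero]

/-- A linear correspondence, composed with a projector which kills the powers of `h`, factors
through the product of the primitive projectors. -/
lemma linear_comp {A B : 𝒱.Obj} {hA : C.A A} {hB : C.A B} {h : C.A X} {d : ℕ}
    {Φ : C.A ((A.prod B).prod X)} (hΦ : IsLinear hA hB h Φ) {π : C.A (X.prod X)}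
    (hπ : ∀ l : ℕ, C.act π (h ^ l) = 0) :
    C.comp Φ π = C.comp (tens C (primProj C d hA) (primProj C d hB)) (C.comp Φ π) := by
  obtain ⟨τA, hτA⟩ : ∃ τ, τ = (d : ℚ)⁻¹ • ∑ i ∈ Finset.range (A.dim + 1),
    C.ext (hA ^ (A.dim - i)) (hA ^ i) := ⟨_, rfl⟩
  obtain ⟨τB, hτB⟩ : ∃ τ, τ = (d : ℚ)⁻¹ • ∑ i ∈ Finset.range (B.dim + 1),
    C.ext (hB ^ (B.dim - i)) (hB ^ i) := ⟨_, rfl⟩
  have e1 : primProj C d hA = dg C A - τA := by rw [primProj_eq, hτA]
  have e2 : primProj C d hB = dg C B - τB := by rw [primProj_eq, hτB]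
  have h1 : C.comp (tens C (dg C A) τB) (C.comp Φ π) = 0 := by
    rw [← comp_assoc, ← tensL_apply, hτB, map_smul, map_sum, smul_comp, sum_comp, smul_comp,
      sum_comp, Finset.sum_eq_zero, smul_zero]
    intro i hi
    rw [tensL_apply]
    exact decomposable_comp (hΦ.1 i (by
      have := Finset.mem_range.1 hi
      omega)) hπ
  have h2 : C.comp (tens C τA (dg C B)) (C.comp Φ π) = 0 := by
    rw [← comp_assoc, ← tensL_apply, hτA, map_smul, map_sum, LinearMap.smul_apply,
      LinearMap.sum_apply, smul_comp, sum_comp, smul_comp,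
      sum_comp, Finset.sum_eq_zero, smul_zero]
    intro i hi
    rw [tensL_apply]
    exact decomposable_comp (hΦ.2 i (by
      have := Finset.mem_range.1 hi
      omega)) hπ
  have h3 : tens C (primProj C d hA) (primProj C d hB) =
      dg C (A.prod B) - tens C (dg C A) τB -
        C.comp (tens C (dg C A) (dg C B - τB)) (tens C τA (dg C B)) := by
    rw [tens_comp C (ch_comm C), comp_dg, dg_comp, e1, e2, ← tens_dg C]
    simp only [← tensL_apply, map_sub, LinearMap.sub_apply]
    abel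
  rw [h3, sub_comp, sub_comp, dg_comp, h1, comp_assoc, h2, comp_zero, sub_zero, sub_zero]

lemma mem_through {n : ℕ} {A B : 𝒱.Obj} {hA : C.A A} {hB : C.A B} {h : C.A X} {d : ℕ}
    {Φ : C.A ((A.prod B).prod X)} (hΦ : IsLinear hA hB h Φ)
    (hdeg : Φ ∈ C.gr ((A.prod B).prod X) (((A.prod B).dim : ℤ) + n))
    (hdim : (A.prod B).dim + 2 * n = X.dim) {π : C.A (X.prod X)}
    (hπ : ∀ l : ℕ, C.act π (h ^ l) = 0) (hπd : π ∈ C.gr (X.prod X) X.dim) (q : ℚ) :
    C.comp π (C.comp (q • C.comp (tp C Φ) Φ) π) ∈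
      through C X n (tens C (primProj C d hA) (primProj C d hB)) := by
  rw [smul_comp, comp_smul]
  refine Submodule.smul_mem _ _ (Submodule.subset_span ⟨C.comp π (tp C Φ), C.comp Φ π, ?_, ?_, ?_⟩)
  · have h1 := comp_gr hπd (tp_mem C hdeg)
    have e1 : (X.dim : ℤ) + (((A.prod B).dim : ℤ) + n) - X.dim = X.dim - n := by omega
    rwa [e1] at h1
  · have h1 := comp_gr hdeg hπd
    have e1 : ((A.prod B).dim : ℤ) + n + X.dim - X.dim = (A.prod B).dim + n := by ring
    rwa [e1] at h1
  · rw [← linear_comp hΦ hπ, comp_assoc, comp_assoc]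

/-- **The inductive structure of Katsura and Shioda for the primitive motives.** -/
lemma join [CharZero k] {T : HypersurfaceData C} {d : ℕ} (hd : 2 ≤ d)
    (hT : ∀ {σ : Type} [Finite σ] (f : MvPolynomial σ k), IsNonsingularForm d f →
      3 ≤ Nat.card σ → IsEmbedded T d f) {ρ σ τ : Type} [Finite ρ] [Finite σ] [Finite τ]
    (e : ρ ≃ σ ⊕ τ) {F : MvPolynomial ρ k} {f : MvPolynomial σ k} {g : MvPolynomial τ k}
    (htop : HasDegree C (T.h F ^ (T.V F).dim) d)
    (hF : IsNonsingularForm d F) (hf : IsNonsingularForm d f) (hg : IsNonsingularForm d g)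
    (hσ : 3 ≤ Nat.card σ) (hτ : 3 ≤ Nat.card τ) (h : IsDominated T d F f g) :
    primProj C d (T.h F) ∈ through C (T.V F) 0 (tens C (primProj C d (T.h (addPow d f)))
        (primProj C d (T.h (addPow d g)))) ⊔
      through C (T.V F) 1 (tens C (primProj C d (T.h f)) (primProj C d (T.h g))) := by
  obtain ⟨q, q', Ψ, Γ, hΨ, hΓ, hdg, h1, h2⟩ := h
  have hone : Nat.card Unit = 1 := by rw [Nat.card_eq_fintype_card, Fintype.card_unit]
  have hpow := isNonsingularForm_pow (k := k) (d := d) hd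
  have hρ : Nat.card ρ = Nat.card σ + Nat.card τ := by rw [Nat.card_congr e, Nat.card_sum]
  have hσ1 : Nat.card (σ ⊕ Unit) = Nat.card σ + 1 := by rw [Nat.card_sum, hone]
  have hτ1 : Nat.card (τ ⊕ Unit) = Nat.card τ + 1 := by rw [Nat.card_sum, hone]
  have hEF := hT F hF (by omega)
  have hEf := (hT f hf hσ).dim
  have hEg := (hT g hg hτ).dim
  have hEf' := (hT _ (hf.sumForm hpow) (by omega)).dim
  have hEg' := (hT _ (hg.sumForm hpow) (by omega)).dim
  have hEF' := hEF.dim
  have hkill : ∀ l : ℕ, C.act (primProj C d (T.h F)) (T.h F ^ l) = 0 := fun l =>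
    act_primProj_pow hEF.h_deg (by omega) htop l
  have hπd : primProj C d (T.h F) ∈ C.gr _ (T.V F).dim := primProj_gr hEF.h_deg d
  have hidem : primProj C d (T.h F) = C.comp (primProj C d (T.h F)) (C.comp (dg C (T.V F)) (primProj C d (T.h F))) := by
    rw [dg_comp]
    exact (primProj_comp hEF.h_deg (by omega) htop).symm
  have hdg' : dg C (T.V F) = q • C.comp (tp C Ψ) Ψ + q' • C.comp (tp C Γ) Γ := hdg
  have hEf' : (T.V (addPow d f)).dim + 2 = Nat.card (σ ⊕ Unit) := hEf'
  have hEg' : (T.V (addPow d g)).dim + 2 = Nat.card (τ ⊕ Unit) := hEg'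
  rw [hidem, hdg', add_comp, comp_add]
  refine Submodule.add_mem_sup ?_ ?_
  · refine mem_through (n := 0) h1 ?_ ?_ hkill hπd q
    · rw [Nat.cast_zero, add_zero]
      exact hΨ
    · rw [dim_prod]
      omega
  · refine mem_through (n := 1) h2 ?_ ?_ hkill hπd q'
    · rw [Nat.cast_one]
      exact hΓ
    · rw [dim_prod]
      omega

end chow

section weil

variable {C : TheoryData.{u, v, 0} 𝒱 ℚ} [hC : IsChowProj C] {K : Type w} [Field K]
  {H : WeilTheoryData.{u, v, w} C K} [hH : IsWeilProj H]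

include hC hH

/-- The degree of the hypersurface is `d`. -/
lemma hasDegree_top {T : HypersurfaceData C} {d : ℕ} {ρ : Type} {F : MvPolynomial ρ k}
    (hE : IsEmbedded T d F) : HasDegree C (T.h F ^ (T.V F).dim) d := by
  obtain ⟨q, hq⟩ := exists_hasDegree (pow_gr (C := C) hE.h_deg (T.V F).dim)
  have h1 : C.act (C.ext (T.h F ^ (T.V F).dim) (T.h F ^ 0)) 1 = q • (T.h F ^ 0) :=
    act_ext' (by rwa [mul_one])
  have h2 : C.act (C.ext (T.h F ^ (T.V F).dim) (T.h F ^ 0)) 1 = (d : ℚ) • (1 : C.A (T.V F)) :=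
    hE.h_top
  rw [h2, pow_zero] at h1
  have h3 : (d : ℚ) = q := by
    by_contra hne
    have h4 : ((d : ℚ) - q) • (1 : C.A (T.V F)) = 0 := by rw [sub_smul, h1, sub_self]
    have h5 : (1 : C.A (T.V F)) = 0 := by
      rw [← one_smul ℚ (1 : C.A (T.V F)), ← inv_mul_cancel₀ (sub_ne_zero.2 hne), mul_smul, h4,
        smul_zero]
    have h6 : (1 : H.A (T.V F)) = 0 := by rw [← map_one H.cl, h5, map_zero]
    exact hH.one_ne_zero _ h6
  rwa [h3]

/-- **The primitive motive has coniveau `∑ c_l`.** -/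
theorem prim_mem [CharZero k] {T : HypersurfaceData C} {d : ℕ} (hd : 3 ≤ d)
    (hT : IsHypersurfaceTheory H T d) {c₀ : ℕ} (cs : List ℕ) {ρ : Type} (F : MvPolynomial ρ k)
    (hF : Sep d c₀ cs F) (hρ : 3 ≤ Nat.card ρ) :
    primProj C d (T.h F) ∈ coniveau C (T.V F) (cs.sum + c₀) := by
  have hbase : ∀ {σ : Type} [Finite σ] (f : MvPolynomial σ k), IsNonsingularForm d f →
      3 ≤ Nat.card σ → primProj C d (T.h f) ∈ coniveau C (T.V f) 0 := fun f hf hσ =>
    coniveau_zero (primProj_gr (hT.emb f hf hσ).h_deg d)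
  induction cs generalizing ρ F with
  | nil =>
    have := hF.1
    rw [List.sum_nil, zero_add]
    rcases Nat.eq_zero_or_pos c₀ with rfl | h1
    · exact hbase F hF.2.1 hρ
    · exact hT.small F hF.2.1 hρ c₀ h1 (by
        rcases hF.2.2 with h2 | h2
        · omega
        · exact h2)
  | cons c cs ih =>
    have hFf := Sep.form _ hF
    have hFfin := Sep.finite _ hF
    obtain ⟨σ, τ, _, _, e, f, g, h1, h2, ⟨h7, h3⟩, h3', h4⟩ := hF
    have hcard : Nat.card ρ = Nat.card σ + Nat.card τ := by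
      rw [Nat.card_congr e, Nat.card_sum]
    rw [List.sum_cons]
    rcases Nat.eq_zero_or_pos (cs.sum + c₀) with h5 | h5
    · -- the case of one summand with `c > 0`
      have h6 : c + cs.sum + c₀ = c := by omega
      rw [h6]
      exact hT.small F hFf hρ c h7 (by omega)
    · have hτ : d ≤ Nat.card τ := Sep.card (by omega) cs h4 h5
      have hσ : d ≤ Nat.card σ := (le_choose (by omega) h7).trans h3
      have hpow := isNonsingularForm_pow (k := k) (d := d) (by omega)
      have h8 := join (by omega) hT.emb e (hasDegree_top (H := H) (hT.emb F hFf hρ)) hFf h2 (Sep.form _ h4) (by omega) (by omega)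
        (hT.dominated e F f g h1 h2 (Sep.form _ h4) (by omega) (by omega))
      have hg' : Sep d c₀ cs (sumForm g (powForm k d)) := Sep.add_pow (by omega) cs h4
      have hone : Nat.card Unit = 1 := by rw [Nat.card_eq_fintype_card, Fintype.card_unit]
      have hc1 : 3 ≤ Nat.card (σ ⊕ Unit) := by
        rw [Nat.card_sum]; omega
      have hc2 : 3 ≤ Nat.card (τ ⊕ Unit) := by
        rw [Nat.card_sum]; omega
      have h9 : primProj C d (T.h (addPow d f)) ∈ coniveau C _ c :=
        hT.small _ (h2.sumForm hpow) hc1 c h7 (by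
          rw [Nat.card_sum, hone]
          omega)
      have h10 := ih _ hg' hc2
      have h11 : primProj C d (T.h f) ∈ coniveau C _ (c - 1) := by
        rcases Nat.eq_zero_or_pos (c - 1) with h12 | h12
        · rw [h12]
          exact hbase f h2 (by omega)
        · exact hT.small f h2 (by omega) (c - 1) h12
            ((choose_lt (by omega) h7).trans_le h3)
      have h12 := ih _ h4 (by omega)
      have h13 := (sup_le ((through_le (tens_coniveau h9 h10)).trans
        (coniveau_anti (c := c + cs.sum + c₀) (by omega)))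
        ((through_le (tens_coniveau h11 h12)).trans
        (coniveau_anti (c := c + cs.sum + c₀) (by omega)))) h8
      exact h13

/-- The primitive projector acts as zero outside the middle degree. -/
lemma prim_act_zero {T : HypersurfaceData C} {d : ℕ} (hd : d ≠ 0) {ρ : Type}
    {F : MvPolynomial ρ k} (hE : IsEmbedded T d F) (hL : HasLefschetz H T F) {l : ℤ}
    (hl : l ≠ (T.V F).dim) {a : H.A (T.V F)} (ha : H.Deg l a) :
    H.act (H.cl (primProj C d (T.h F))) a = 0 := by
  rcases hL l a ha hl with rfl | ⟨i, κ, -, rfl⟩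
  · exact map_zero (H.actL (H.cl (primProj C d (T.h F))))
  · rw [show pw C (T.h F) i = T.h F ^ i from rfl]
    have h1 : H.act (H.cl (primProj C d (T.h F))) (κ • H.cl (T.h F ^ i)) =
        κ • H.act (H.cl (primProj C d (T.h F))) (H.cl (T.h F ^ i)) :=
      map_smul (H.actL (H.cl (primProj C d (T.h F)))) κ _
    rw [h1, ← cl_act, act_primProj_pow hE.h_deg hd (hasDegree_top (H := H) hE), map_zero,
      smul_zero]

/-- **Cycles of small codimension.** -/
theorem small_codim (hP : PicardProperty H) {T : HypersurfaceData C} {d : ℕ} (hd : d ≠ 0)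
    {ρ : Type} {F : MvPolynomial ρ k} (hE : IsEmbedded T d F) (hL : HasLefschetz H T F) {c : ℕ}
    (hc : primProj C d (T.h F) ∈ coniveau C (T.V F) c) {j : ℕ} (hj : j ≤ c + 1)
    (hn : 2 * j < (T.V F).dim) {z : C.A (T.V F)} (hz : z ∈ C.gr (T.V F) j) :
    ∃ q : ℚ, z = q • T.h F ^ j := by
  rcases Nat.eq_zero_or_pos j with rfl | hj0
  · obtain ⟨q, rfl⟩ := hC.gr_zero _ z hz
    exact ⟨q, by rw [pow_zero]⟩
  have hh := hE.h_deg
  have hc' : primProj C d (T.h F) ∈ coniveau C (T.V F) (j - 1) := coniveau_anti (by omega) hc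
  -- the degrees
  have hdeg : ∀ y ∈ C.gr (T.V F) (j : ℤ), T.h F ^ ((T.V F).dim - j) * y ∈
      C.gr (T.V F) (T.V F).dim := by
    intro y hy
    have h1 : T.h F ^ ((T.V F).dim - j) * y ∈ C.gr (T.V F) ((((T.V F).dim - j : ℕ) : ℤ) + j) :=
      C.mul_mem (pow_gr hh _) hy
    have e1 : (((T.V F).dim - j : ℕ) : ℤ) + j = (T.V F).dim := by omega
    rwa [e1] at h1
  obtain ⟨q, hq⟩ := exists_hasDegree (hdeg z hz)
  have h1 := act_primProj hh d (by omega) hz hq
  obtain ⟨y, hy⟩ : ∃ y, y = C.act (primProj C d (T.h F)) z := ⟨_, rfl⟩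
  have hprim : primProj C d (T.h F) ∈ C.gr ((T.V F).prod (T.V F)) (T.V F).dim := primProj_gr hh d
  have hy1 : y ∈ C.gr (T.V F) j := by
    rw [hy]
    exact act_mem0 C hprim hz
  have hy0 : H.cl y = 0 := by
    rw [hy, cl_act]
    exact prim_act_zero hd hE hL (l := 2 * (j : ℤ)) (by omega) (H.cl_mem hz)
  have hfix : C.act (primProj C d (T.h F)) y = y := by
    have h2 : HasDegree C (T.h F ^ ((T.V F).dim - j) * y) 0 :=
      hasDegree_zero_of_cl H (hdeg y hy1) (by rw [map_mul, hy0, mul_zero])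
    have h3 := act_primProj hh d (by omega) hy1 h2
    rw [mul_zero, zero_smul, sub_zero] at h3
    exact h3
  have hy2 : y = 0 := by
    have h2 := kill hP hprim (c := j - 1) (fun a ha => prim_act_zero hd hE hL
      (l := 2 * ((j - 1 : ℕ) : ℤ) + 1) (by omega) ha) hc' hc' (by omega) hy1 hy0
    rwa [hfix, hfix, hfix] at h2
  refine ⟨(d : ℚ)⁻¹ * q, ?_⟩
  have h3 : C.act (primProj C d (T.h F)) z = y := hy.symm
  rw [h1, hy2] at h3
  exact sub_eq_zero.1 h3

/-- **Cycles of small dimension.** -/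
theorem small_dim {T : HypersurfaceData C} {d : ℕ} {ρ : Type} {F : MvPolynomial ρ k}
    (hE : IsEmbedded T d F) {c : ℕ} (hc : primProj C d (T.h F) ∈ coniveau C (T.V F) c) {j : ℕ}
    (hj : (T.V F).dim < j + c) {z : C.A (T.V F)} (hz : z ∈ C.gr (T.V F) j) :
    ∃ q : ℚ, z = q • T.h F ^ j := by
  rcases lt_or_ge (T.V F).dim j with hjn | hjn
  · exact ⟨0, by rw [hC.gr_top _ _ _ hz (by exact_mod_cast hjn), zero_smul]⟩
  have hh := hE.h_deg
  have h1 : T.h F ^ ((T.V F).dim - j) * z ∈ C.gr (T.V F) ((((T.V F).dim - j : ℕ) : ℤ) + j) :=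
    C.mul_mem (pow_gr hh _) hz
  have e1 : (((T.V F).dim - j : ℕ) : ℤ) + j = (T.V F).dim := by omega
  rw [e1] at h1
  obtain ⟨q, hq⟩ := exists_hasDegree h1
  have h2 := act_primProj hh d hjn hz hq
  have h3 := tp_coniveau hc (by exact_mod_cast hj) hz
  rw [tp_primProj, h2] at h3
  exact ⟨_, sub_eq_zero.1 h3⟩

end weil

end Pool.Agent.U926.HC
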