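import Pool.Agent.U926.HC.Defs
import Pool.Agent.TH133.Ext

/-!
# Correspondences of given coniveau
-/

set_option autoImplicit false

open CategoryTheory AlgebraicGeometry MvPolynomial

universe u v w

namespace Pool.Agent.U926.HC

open Pool.Agent.H914 Pool.Agent.H914.VarClass Pool.Agent.H914.VarClass.Obj Pool.Agent.W492.BB
  Pool.Agent.W550.Corr Pool.Agent.TH133

set_option linter.unusedSectionVars false

variable {k : Type u} [Field k] {𝒱 : VarClass k}

section defs

variable (C : TheoryData.{u, v, 0} 𝒱 ℚ)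

/-- The self-correspondences of `X` of coniveau at least `c`. -/
noncomputable def coniveau (X : 𝒱.Obj) (c : ℕ) : Submodule ℚ (C.A (X.prod X)) :=
  Submodule.span ℚ {z | ∃ (Z : 𝒱.Obj) (n : ℤ) (a : C.A (X.prod Z)) (b : C.A (Z.prod X)),
    c ≤ n ∧ C.Deg ((X.dim : ℤ) - n) a ∧ C.Deg ((Z.dim : ℤ) + n) b ∧ z = C.comp a b}

/-- The self-correspondences of degree zero of `X` which factor through the correspondence `ε` from
`Y` to `Y`, with shift `n`: the span of the compositions `b ∘ ε ∘ a`. -/
noncomputable def through (X : 𝒱.Obj) {Y : 𝒱.Obj} (n : ℕ) (ε : C.A (Y.prod Y)) :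
    Submodule ℚ (C.A (X.prod X)) :=
  Submodule.span ℚ {z | ∃ (a : C.A (X.prod Y)) (b : C.A (Y.prod X)),
    C.Deg ((X.dim : ℤ) - n) a ∧ C.Deg ((Y.dim : ℤ) + n) b ∧ z = C.comp a (C.comp ε b)}

end defs

section chow

variable {C : TheoryData.{u, v, 0} 𝒱 ℚ} [hC : IsChowProj C] {X Y Z W : 𝒱.Obj}

include hC

lemma comp_gr {r s : ℤ} {a : C.A (X.prod Y)} {b : C.A (Y.prod Z)}
    (ha : a ∈ C.gr (X.prod Y) r) (hb : b ∈ C.gr (Y.prod Z) s) :
    C.comp a b ∈ C.gr (X.prod Z) (r + s - Y.dim) := by
  have h := comp_mem C (e := r - X.dim) (e' := s - Y.dim) (Γ := a) (Δ := b)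
    (by rwa [add_sub_cancel]) (by rwa [add_sub_cancel])
  have e1 : (X.dim : ℤ) + (r - X.dim + (s - Y.dim)) = r + s - Y.dim := by ring
  rwa [e1] at h

lemma act_gr {r i : ℤ} {a : C.A (X.prod Y)} (ha : a ∈ C.gr (X.prod Y) r) {x : C.A X}
    (hx : x ∈ C.gr X i) : C.act a x ∈ C.gr Y (i + r - X.dim) := by
  have h := act_mem' C (e := r - X.dim) (by rwa [add_sub_cancel]) hx
  have e1 : i + (r - X.dim) = i + r - X.dim := by ring
  rwa [e1] at h

lemma coniveau_anti {c c' : ℕ} (h : c ≤ c') : coniveau C X c' ≤ coniveau C X c := by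
  refine Submodule.span_mono ?_
  rintro z ⟨Z, n, a, b, hn, ha, hb, rfl⟩
  exact ⟨Z, n, a, b, by omega, ha, hb, rfl⟩

lemma coniveau_zero {ε : C.A (X.prod X)} (hε : ε ∈ C.gr (X.prod X) X.dim) :
    ε ∈ coniveau C X 0 := by
  refine Submodule.subset_span ⟨X, 0, ε, dg C X, le_rfl, ?_, ?_, (comp_dg C ε).symm⟩
  · rwa [sub_zero]
  · rw [add_zero]
    exact dg_mem C X

lemma tens_coniveau {c c' : ℕ} {ε : C.A (Y.prod Y)} {ε' : C.A (Z.prod Z)}
    (h : ε ∈ coniveau C Y c) (h' : ε' ∈ coniveau C Z c') :
    tens C ε ε' ∈ coniveau C (Y.prod Z) (c + c') := by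
  have key : ∀ z ∈ coniveau C Y c, ∀ z' ∈ coniveau C Z c',
      tensL (C := C) z z' ∈ coniveau C (Y.prod Z) (c + c') := by
    intro z hz z' hz'
    refine Submodule.span_induction (p := fun z _ => tensL (C := C) z z' ∈ _) ?_ ?_ ?_ ?_ hz
    · rintro z ⟨S, n, a, b, hn, ha, hb, rfl⟩
      refine Submodule.span_induction
        (p := fun z' _ => tensL (C := C) (C.comp a b) z' ∈ _) ?_ ?_ ?_ ?_ hz'
      · rintro z' ⟨S', n', a', b', hn', ha', hb', rfl⟩
        rw [tensL_apply]
        refine Submodule.subset_span ⟨S.prod S', n + n', tens C a a', tens C b b',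
          by push_cast; omega, ?_, ?_, (tens_comp C (ch_comm C) _ _ _ _).symm⟩
        · have h1 := tens_mem C ha ha'
          have e1 : (Y.dim : ℤ) - n + ((Z.dim : ℤ) - n') =
              (((Y.prod Z).dim : ℕ) : ℤ) - (n + n') := by
            rw [dim_prod]; push_cast; ring
          rwa [e1] at h1
        · have h1 := tens_mem C hb hb'
          have e1 : (S.dim : ℤ) + n + ((S'.dim : ℤ) + n') =
              (((S.prod S').dim : ℕ) : ℤ) + (n + n') := by
            rw [dim_prod]; push_cast; ring
          rwa [e1] at h1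
      · rw [map_zero]; exact Submodule.zero_mem _
      · intro x y _ _ hx hy
        rw [map_add]; exact Submodule.add_mem _ hx hy
      · intro q x _ hx
        rw [map_smul]; exact Submodule.smul_mem _ q hx
    · rw [map_zero, LinearMap.zero_apply]; exact Submodule.zero_mem _
    · intro x y _ _ hx hy
      rw [map_add, LinearMap.add_apply]; exact Submodule.add_mem _ hx hy
    · intro q x _ hx
      rw [map_smul, LinearMap.smul_apply]; exact Submodule.smul_mem _ q hx
  exact key ε h ε' h'

lemma through_le {c n : ℕ} {ε : C.A (Y.prod Y)} (h : ε ∈ coniveau C Y c) :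
    through C X n ε ≤ coniveau C X (c + n) := by
  unfold through
  rw [Submodule.span_le]
  rintro z ⟨a, b, ha, hb, rfl⟩
  change C.comp a (C.comp ε b) ∈ coniveau C X (c + n)
  refine Submodule.span_induction
    (p := fun ε _ => C.comp a (C.comp ε b) ∈ coniveau C X (c + n)) ?_ ?_ ?_ ?_ h
  · rintro ε ⟨S, m, a', b', hm, ha', hb', rfl⟩
    refine Submodule.subset_span ⟨S, m + n, C.comp a a', C.comp b' b, by push_cast; omega, ?_,
      ?_, ?_⟩
    · have h1 := comp_gr ha ha'
      have e1 : (X.dim : ℤ) - n + ((Y.dim : ℤ) - m) - Y.dim = X.dim - (m + n) := by ring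
      rwa [e1] at h1
    · have h1 := comp_gr hb' hb
      have e1 : (S.dim : ℤ) + m + ((Y.dim : ℤ) + n) - Y.dim = S.dim + (m + n) := by ring
      rwa [e1] at h1
    · rw [comp_assoc C a' b' b, comp_assoc C a a' (C.comp b' b)]
  · rw [zero_comp, comp_zero]; exact Submodule.zero_mem _
  · intro x y _ _ hx hy
    rw [add_comp, comp_add]; exact Submodule.add_mem _ hx hy
  · intro q x _ hx
    have e1 : C.comp (q • x) b = q • C.comp x b := by
      have h1 := LinearMap.map_smul₂ (compL C (X := Y) (Y := Y) (Z := X)) q x b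
      exact h1
    have e2 : C.comp a (q • C.comp x b) = q • C.comp a (C.comp x b) :=
      map_smul (compL C a) q _
    rw [e1, e2]
    exact Submodule.smul_mem _ q hx

end chow

section weil

variable {C : TheoryData.{u, v, 0} 𝒱 ℚ} [hC : IsChowProj C] {K : Type w} [Field K]
  {H : WeilTheoryData.{u, v, w} C K} [hH : IsWeilProj H] {X Y Z W : 𝒱.Obj}

include hC hH

/-- A homologically trivial class of codimension zero is zero. -/
lemma eq_zero_of_gr_zero {x : C.A X} (hx : x ∈ C.gr X 0) (h : H.cl x = 0) : x = 0 := by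
  obtain ⟨q, rfl⟩ := hC.gr_zero X x hx
  have hq : q = 0 := by
    by_contra hne
    have h1 : H.cl (1 : C.A X) = 0 := by
      have h2 : q⁻¹ • (q • (1 : C.A X)) = 1 := by rw [smul_smul, inv_mul_cancel₀ hne, one_smul]
      have h3 : (q⁻¹ • (q • (1 : C.A X)) : C.A X) = (algebraMap ℚ (C.A X) q⁻¹) * (q • 1) :=
        Algebra.smul_def _ _
      rw [← h2, h3, map_mul, h, mul_zero]
    rw [map_one] at h1
    exact hH.one_ne_zero X h1
  rw [hq, zero_smul]

lemma cl_act_zero {a : C.A (X.prod Y)} {x : C.A X} (h : H.cl x = 0) : H.cl (C.act a x) = 0 := by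
  rw [cl_act, h]
  exact map_zero (H.actL (H.cl a))

/-- **The Bloch-Srinivas argument.** Let `π` be a correspondence of degree zero which acts as zero
on `H^(2 c + 1)(X)`. Then `ε' ∘ π ∘ ε` is zero on the homologically trivial cycles of codimension
`≤ c + 1`, for all `ε`, `ε'` of coniveau at least `c`. -/
lemma kill (hP : PicardProperty H) {c : ℕ} {π : C.A (X.prod X)} (hπ : π ∈ C.gr (X.prod X) X.dim)
    (h1 : ∀ a : H.A X, H.Deg (2 * c + 1) a → H.act (H.cl π) a = 0) {ε ε' : C.A (X.prod X)}
    (hε : ε ∈ coniveau C X c) (hε' : ε' ∈ coniveau C X c) {j : ℕ} (hj : j ≤ c + 1) {z : C.A X}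
    (hz : z ∈ C.gr X j) (hz0 : H.cl z = 0) : C.act ε' (C.act π (C.act ε z)) = 0 := by
  refine Submodule.span_induction (p := fun ε _ => C.act ε' (C.act π (C.act ε z)) = 0)
    ?_ ?_ ?_ ?_ hε
  · rintro ε ⟨S, n, a, b, hn, ha, hb, rfl⟩
    rw [C.act_comp a b]
    have hD := act_gr ha hz
    have hD0 : H.cl (C.act a z) = 0 := cl_act_zero hz0
    generalize C.act a z = D at hD hD0
    have e1 : (j : ℤ) + (X.dim - n) - X.dim = j - n := by ring
    rw [e1] at hD
    rcases lt_or_ge (j : ℤ) n with h2 | h2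
    · rw [C.gr_neg S _ (by omega)] at hD
      rw [(Submodule.mem_bot _).1 hD, C.act_map_zero, C.act_map_zero, C.act_map_zero]
    rcases h2.eq_or_lt with h2 | h2
    · have e2 : (j : ℤ) - n = 0 := by omega
      rw [e2] at hD
      rw [eq_zero_of_gr_zero hD hD0, C.act_map_zero, C.act_map_zero, C.act_map_zero]
    · obtain rfl : n = c := by omega
      obtain rfl : j = c + 1 := by omega
      have e2 : ((c + 1 : ℕ) : ℤ) - c = 1 := by push_cast; ring
      rw [e2] at hD
      refine Submodule.span_induction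
        (p := fun ε' _ => C.act ε' (C.act π (C.act b D)) = 0) ?_ ?_ ?_ ?_ hε'
      · rintro ε' ⟨S', n', a', b', hn', ha', hb', rfl⟩
        rw [C.act_comp a' b', ← C.act_comp b π, ← C.act_comp _ a']
        have hΓ := comp_gr (comp_gr hb hπ) ha'
        have hE := act_gr hΓ hD
        have hE0 : H.cl (C.act (C.comp (C.comp b π) a') D) = 0 := cl_act_zero hD0
        have e3 : (1 : ℤ) + ((S.dim : ℤ) + c + X.dim - X.dim + (X.dim - n') - X.dim) - S.dim =
            1 + c - n' := by ring
        rw [e3] at hE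
        have hE' : C.act (C.comp (C.comp b π) a') D = 0 := by
          rcases lt_or_ge (1 + (c : ℤ)) n' with h3 | h3
          · rw [C.gr_neg S' _ (by omega)] at hE
            exact (Submodule.mem_bot _).1 hE
          rcases h3.eq_or_lt with h3 | h3
          · have e4 : 1 + (c : ℤ) - n' = 0 := by omega
            rw [e4] at hE
            exact eq_zero_of_gr_zero hE hE0
          · obtain rfl : n' = c := by omega
            refine hP S S' _ ?_ (fun x hx => ?_) D hD hD0
            · have e5 : (S.dim : ℤ) + c + X.dim - X.dim + (X.dim - c) - X.dim = S.dim := by ring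
              rw [e5] at hΓ
              exact hΓ
            · rw [actH_comp, actH_comp]
              have h4 := actH_mem H hb hx
              have e6 : (1 : ℤ) + 2 * c = 2 * c + 1 := by ring
              rw [e6] at h4
              rw [h1 _ h4]
              exact map_zero (H.actL (H.cl a'))
        rw [hE', C.act_map_zero]
      · exact C.act_zero _
      · intro x y _ _ hx hy
        rw [C.act_add, hx, hy, add_zero]
      · intro q x _ hx
        have e4 : C.act (q • x) (C.act π (C.act b D)) = q • C.act x (C.act π (C.act b D)) :=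
          LinearMap.map_smul₂ (actB C) q x _
        rw [e4, hx, smul_zero]
  · rw [C.act_zero, C.act_map_zero, C.act_map_zero]
  · intro x y _ _ hx hy
    rw [C.act_add, act_map_add, act_map_add, hx, hy, add_zero]
  · intro q x _ hx
    have e4 : C.act (q • x) z = q • C.act x z := LinearMap.map_smul₂ (actB C) q x _
    rw [e4, act_map_smul, act_map_smul, hx, smul_zero]

end weil

end Pool.Agent.U926.HC
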