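import Pool.Agent.TH133.Defs
import Pool.Agent.U926.HC.FormDefs

/-!
# Hypersurfaces with equations in separate sets of variables: definitions
-/

set_option autoImplicit false

open CategoryTheory AlgebraicGeometry MvPolynomial

universe u v w

namespace Pool.Agent.U926.HC

open Pool.Agent.H914 Pool.Agent.H914.VarClass Pool.Agent.H914.VarClass.Obj Pool.Agent.W492.BB
  Pool.Agent.TH133

section corr

variable {k : Type u} [Field k] {𝒱 : VarClass k} (C : TheoryData.{u, v, 0} 𝒱 ℚ)

/-- The self-correspondence `ε` of degree zero of `X` has coniveau at least `c`: it is a sum of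
compositions `b ∘ a` of correspondences `a` from `X` to `Z`, `b` from `Z` to `X` which lower and raise
the codimension of cycles by `n`, for varieties `Z` and `n ≥ c`. For a projector `ε` it says that the
motive `(X, ε)` is a direct summand of a finite sum of motives `h(Z)(-n)`, `n ≥ c`. -/
def HasConiveau {X : 𝒱.Obj} (c : ℕ) (ε : C.A (X.prod X)) : Prop :=
  ε ∈ Submodule.span ℚ {z | ∃ (Z : 𝒱.Obj) (n : ℤ) (a : C.A (X.prod Z)) (b : C.A (Z.prod X)),
    c ≤ n ∧ C.Deg ((X.dim : ℤ) - n) a ∧ C.Deg ((Z.dim : ℤ) + n) b ∧ z = C.comp a b}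

/-- The power `h ^ i`. -/
def pw {X : 𝒱.Obj} (h : C.A X) (i : ℕ) : C.A X := h ^ i

/-- The class `h ^ (n - i) × h ^ i` on `X × X`, `n = dim X`. -/
noncomputable def lin {X : 𝒱.Obj} (h : C.A X) (i : ℕ) : C.A (X.prod X) :=
  C.ext (pw C h (X.dim - i)) (pw C h i)

/-- The projector `[Δ] - (1 / d) ∑ h ^ (n - i) × h ^ i` to the primitive part of the motive of a
variety `X` of dimension `n` with a divisor class `h` of degree `d`. -/
noncomputable def primProj {X : 𝒱.Obj} (d : ℕ) (h : C.A X) : C.A (X.prod X) :=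
  C.graph (𝟙 X) - (d : ℚ)⁻¹ • ∑ i ∈ Finset.range (X.dim + 1), lin C h i

/-- The hypersurfaces `f = 0` as varieties of the class `𝒱`, for all forms `f` in any set `σ` of
variables, with the classes of the hyperplane sections. -/
structure HypersurfaceData where
  /-- the hypersurface `f = 0` -/
  V : ∀ {σ : Type}, MvPolynomial σ k → 𝒱.Obj
  /-- the class of a hyperplane section -/
  h : ∀ {σ : Type} (f : MvPolynomial σ k), C.A (V f)

/-- The correspondence `z` from `Y` to `X` is a sum of products `γ × h ^ l`. -/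
def IsDecomposable {Y X : 𝒱.Obj} (h : C.A X) (z : C.A (Y.prod X)) : Prop :=
  z ∈ Submodule.span ℚ {z | ∃ (γ : C.A Y) (l : ℕ), z = C.ext γ (pw C h l)}

/-- The external product of the self-correspondences `Γ` of `X` and `Δ` of `Z`. -/
noncomputable def ten {X Z : 𝒱.Obj} (Γ : C.A (X.prod X)) (Δ : C.A (Z.prod Z)) :
    C.A ((X.prod Z).prod (X.prod Z)) :=
  C.mul (C.up (prodMap (fst X Z) (fst X Z)) Γ) (C.up (prodMap (snd X Z) (snd X Z)) Δ)

variable {C}

/-- The correspondence `Φ` from `A × B` to the hypersurface `X` maps the products of the cycles on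
`A`, respectively `B`, and the linear sections of `B`, respectively `A`, to restrictions of cycles on
the projective space, also in families: the compositions of `Φ` with `Δ_A × (h_B ^ (m - i) × h_B ^ i)`
and with `(h_A ^ (m - i) × h_A ^ i) × Δ_B` are sums of products `γ × h ^ l`. -/
def IsLinear {A B X : 𝒱.Obj} (hA : C.A A) (hB : C.A B) (h : C.A X)
    (Φ : C.A ((A.prod B).prod X)) : Prop :=
  (∀ i ≤ B.dim, IsDecomposable C h (C.comp (ten C (C.graph (𝟙 A)) (lin C hB i)) Φ)) ∧
    ∀ i ≤ A.dim, IsDecomposable C h (C.comp (ten C (lin C hA i) (C.graph (𝟙 B))) Φ)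

/-- The theorem of Katsura and Shioda for `F = f(x) + g(y)`. Let `A` and `B` be the hypersurfaces
`f(x) + z ^ d = 0` and `g(y) + w ^ d = 0`. The rational map from `A × B` to the hypersurface `F = 0`
which maps `((x : z), (y : w))` to `(w x : ε z y)`, `ε ^ d = -1`, has degree `d` and becomes a morphism
after blowing up the product `A' × B'` of `f(x) = 0` and `g(y) = 0`; the exceptional divisor is the
family of the lines joining the points of `A'` and `B'`. By the blow-up formula
`[Δ] = q Ψ ∘ Ψ^t + q' Γ ∘ Γ^t` with `q = 1 / d`, `q' = -1 / d`, where `Ψ` is the graph of the rational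
map and `Γ` is the family of lines. -/
def IsDominated (T : HypersurfaceData C) (d : ℕ) {ρ σ τ : Type} (F : MvPolynomial ρ k)
    (f : MvPolynomial σ k) (g : MvPolynomial τ k) : Prop :=
  ∃ (q q' : ℚ) (Ψ : C.A (((T.V (addPow d f)).prod (T.V (addPow d g))).prod (T.V F)))
    (Γ : C.A (((T.V f).prod (T.V g)).prod (T.V F))),
    C.Deg (((T.V (addPow d f)).prod (T.V (addPow d g))).dim : ℤ) Ψ ∧
    C.Deg ((((T.V f).prod (T.V g)).dim : ℤ) + 1) Γ ∧
    C.graph (𝟙 (T.V F)) = q • C.comp (tp C Ψ) Ψ + q' • C.comp (tp C Γ) Γ ∧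
    IsLinear (T.h (addPow d f)) (T.h (addPow d g)) (T.h F) Ψ ∧
    IsLinear (T.h f) (T.h g) (T.h F) Γ

/-- The variety `V(f)` is the hypersurface `f = 0`; the class `h` has degree one and
`deg h ^ n = d`, i.e. the correspondence `h ^ n × 1` maps `1` to `d`. -/
structure IsEmbedded (T : HypersurfaceData C) (d : ℕ) {σ : Type} (f : MvPolynomial σ k) :
    Prop where
  emb : IsHypersurface (T.V f).V f
  dim : (T.V f).dim + 2 = Nat.card σ
  h_deg : C.Deg 1 (T.h f)
  h_top : C.act (lin C (T.h f) 0) 1 = (d : ℚ) • (1 : C.A (T.V f))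

variable {K : Type w} [Field K] (H : WeilTheoryData.{u, v, w} C K)

/-- The cohomology of the hypersurface `f = 0` outside the middle degree is spanned by the powers
of `h` (Lefschetz). -/
def HasLefschetz (T : HypersurfaceData C) {σ : Type} (f : MvPolynomial σ k) : Prop :=
  ∀ (l : ℤ) (a : H.A (T.V f)), H.Deg l a → l ≠ (T.V f).dim →
    a = 0 ∨ ∃ (i : ℕ) (κ : K), l = 2 * i ∧ a = κ • H.cl (pw C (T.h f) i)

/-- The known properties of the nonsingular hypersurfaces of degree `d ≥ 3` and dimension `≥ 1`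
which are used:

* `emb`, `lefschetz`: see `IsEmbedded`, `HasLefschetz`;
* `small` (Esnault-Levine-Viehweg; for `c = 1` Roitman, Bloch-Srinivas): if
  `binomial(c + d - 1, c) ≤ N - 1`, `N` the number of variables and `c ≥ 1`, then
  `CH_l(X) ⊗ ℚ = ℚ` for `l < c`, so the primitive projector has coniveau at least `c`;
* `dominated` (Katsura-Shioda): see `IsDominated`. -/
structure IsHypersurfaceTheory (T : HypersurfaceData C) (d : ℕ) : Prop where
  emb : ∀ {σ : Type} [Finite σ] (f : MvPolynomial σ k), IsNonsingularForm d f → 3 ≤ Nat.card σ →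
    IsEmbedded T d f
  lefschetz : ∀ {σ : Type} [Finite σ] (f : MvPolynomial σ k), IsNonsingularForm d f →
    3 ≤ Nat.card σ → HasLefschetz H T f
  small : ∀ {σ : Type} [Finite σ] (f : MvPolynomial σ k), IsNonsingularForm d f →
    3 ≤ Nat.card σ → ∀ c : ℕ, 1 ≤ c → (c + d - 1).choose c < Nat.card σ →
    HasConiveau C c (primProj C d (T.h f))
  dominated : ∀ {ρ σ τ : Type} [Finite ρ] [Finite σ] [Finite τ] (e : ρ ≃ σ ⊕ τ)
    (F : MvPolynomial ρ k) (f : MvPolynomial σ k) (g : MvPolynomial τ k),
    rename e F = sumForm f g → IsNonsingularForm d f → IsNonsingularForm d g →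
    3 ≤ Nat.card σ → 3 ≤ Nat.card τ → IsDominated T d F f g

/-- The known theorem on divisors which is used: a correspondence of degree zero from `X` to `Y`
which acts as zero on `H^1(X)` acts as zero on the homologically trivial divisor classes (its action
on the Picard varieties is zero up to isogeny). -/
def PicardProperty : Prop :=
  ∀ (X Y : 𝒱.Obj) (Γ : C.A (X.prod Y)), C.Deg X.dim Γ →
    (∀ a : H.A X, H.Deg 1 a → H.act (H.cl Γ) a = 0) →
    ∀ D : C.A X, C.Deg 1 D → H.cl D = 0 → C.act Γ D = 0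

/-- `CH^j(X) ⊗ ℚ = ℚ h ^ j` for the hypersurface `X : F = 0`. -/
def IsGenerated (T : HypersurfaceData C) {ρ : Type} (F : MvPolynomial ρ k) (j : ℕ) : Prop :=
  ∀ z : C.A (T.V F), C.Deg j z → ∃ q : ℚ, z = q • pw C (T.h F) j

end corr

end Pool.Agent.U926.HC
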