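import Pool.Agent.U926.HC.Main

/-!
# Fermat hypersurfaces, and the statements for sums of forms
-/

set_option autoImplicit false

open CategoryTheory AlgebraicGeometry MvPolynomial

universe u v w

namespace Pool.Agent.U926.HC

open Pool.Agent.H914 Pool.Agent.H914.VarClass Pool.Agent.H914.VarClass.Obj Pool.Agent.W492.BB
  Pool.Agent.W550.Corr Pool.Agent.TH133

set_option linter.unusedSectionVars false

variable {k : Type u} [Field k]

lemma fermat_form [CharZero k] {N d : ℕ} (hd : 2 ≤ d) :
    IsNonsingularForm d (fermat k N d) := by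
  refine ⟨?_, fun x hx => ?_⟩
  · refine IsHomogeneous.sum _ _ _ fun i _ => ?_
    have h1 := (isHomogeneous_X k i).pow d
    rwa [one_mul] at h1
  · funext i
    have h1 := hx i
    rw [fermat, map_sum, Finset.sum_eq_single i] at h1
    · rw [pderiv_pow, pderiv_X_self, mul_one, map_mul, map_natCast, map_pow, eval_X] at h1
      rcases mul_eq_zero.1 h1 with h2 | h2
      · exact absurd (Nat.cast_eq_zero.1 h2) (by omega)
      · exact pow_eq_zero_iff (by omega) |>.1 h2
    · intro j _ hj
      rw [pderiv_pow, pderiv_X_of_ne hj, mul_zero]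
    · intro h2
      exact absurd (Finset.mem_univ _) h2

lemma sep_fermat [CharZero k] {d : ℕ} (hd : 2 ≤ d) (c : ℕ) :
    ∀ N : ℕ, c * d < N → Sep d 0 (List.replicate c 1) (fermat k N d) := by
  induction c with
  | zero =>
    intro N _
    exact ⟨inferInstance, fermat_form hd, Or.inl rfl⟩
  | succ c ih =>
    intro N hN
    have h1 : c * d < N - d := by
      rw [Nat.succ_mul] at hN
      omega
    have h2 : d + (N - d) = N := by
      rw [Nat.succ_mul] at hN
      omega
    refine ⟨Fin d, Fin (N - d), inferInstance, inferInstance,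
      ((finSumFinEquiv (m := d) (n := N - d)).trans (finCongr h2)).symm, fermat k d d,
      fermat k (N - d) d, ?_, fermat_form hd, ⟨le_rfl, ?_⟩, ?_, ih _ h1⟩
    · rw [fermat, map_sum, sumForm, fermat, fermat, map_sum, map_sum]
      rw [← Equiv.sum_comp ((finSumFinEquiv (m := d) (n := N - d)).trans (finCongr h2)),
        Fintype.sum_sum_type]
      congr 1
      · refine Finset.sum_congr rfl fun i _ => ?_
        rw [map_pow, map_pow, rename_X, rename_X, Equiv.symm_apply_apply]
      · refine Finset.sum_congr rfl fun i _ => ?_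
        rw [map_pow, map_pow, rename_X, rename_X, Equiv.symm_apply_apply]
    · rw [Nat.card_eq_fintype_card, Fintype.card_fin, Nat.add_comm 1 d, Nat.add_sub_cancel,
        Nat.choose_one_right]
    · rw [Nat.card_eq_fintype_card, Fintype.card_fin]
      omega

variable {𝒱 : VarClass k} {C : TheoryData.{u, v, 0} 𝒱 ℚ}

variable [hC : IsChowProj C] {K : Type w} [Field K]
  {H : WeilTheoryData.{u, v, w} C K} [hH : IsWeilProj H]

include hC hH

/-- The two theorems for forms with the property `Sep`. -/
theorem of_sep [CharZero k] (hP : PicardProperty H) {T : HypersurfaceData C} {d : ℕ} (hd : 3 ≤ d)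
    (hT : IsHypersurfaceTheory H T d) {c₀ : ℕ} {cs : List ℕ} {ρ : Type} {F : MvPolynomial ρ k}
    (hF : Sep d c₀ cs F) (j : ℕ) :
    (j ≤ 1 + (cs.sum + c₀) → 2 * j + 2 < Nat.card ρ → IsGenerated T F j) ∧
      (3 ≤ Nat.card ρ → Nat.card ρ < j + 2 + (cs.sum + c₀) → IsGenerated T F j) := by
  have := Sep.finite _ hF
  have hFf := Sep.form _ hF
  refine ⟨fun h1 h2 z hz => ?_, fun h1 h2 z hz => ?_⟩
  · have hE := hT.emb F hFf (by omega)
    have hdim := hE.dim
    exact small_codim hP (by omega) hE (hT.lefschetz F hFf (by omega))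
      (prim_mem hd hT cs F hF (by omega)) (by omega) (by omega) hz
  · have hE := hT.emb F hFf h1
    have hdim := hE.dim
    exact small_dim (H := H) hE (prim_mem hd hT cs F hF (by omega)) (by omega) hz

end Pool.Agent.U926.HC
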